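import Pool.Agent.helper62.MS.SpecD
import Pool.Agent.helper27.EN.XVO

/-!
# MP_07c750, project MS, row HD2: thin boxes on stable arcs
-/

set_option autoImplicit false

open scoped MatrixGroups ContDiff Topology UpperHalfPlane ComplexConjugate
open UpperHalfPlane MeasureTheory Filter Set

namespace Pool.Agent.MS

open Pool.Agent.RS

/-- the set of the coordinates -/
def HD2_P (A B v : ℝ) : Set (ℝ × ℝ) :=
  {p | 1 / 18 ≤ p.2 ∧ p.2 ≤ 18 ∧ 7 / 8 ≤ A / √p.2 ∧ |√p.2 * B - p.1 / √p.2 * A| ≤ v}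

theorem HD2_Pm (A B v : ℝ) : MeasurableSet (HD2_P A B v) := by
  unfold HD2_P
  have h1 : Measurable fun p : ℝ × ℝ => p.2 := measurable_snd
  have h2 : Measurable fun p : ℝ × ℝ => √p.2 := h1.sqrt
  have h3 : Measurable fun p : ℝ × ℝ => |√p.2 * B - p.1 / √p.2 * A| :=
    ((h2.mul_const B).sub ((measurable_fst.div h2).mul_const A)).abs
  refine (measurableSet_le measurable_const h1).inter ((measurableSet_le h1 measurable_const).inter
    ((measurableSet_le measurable_const (measurable_const.div h2)).inter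
      (measurableSet_le h3 measurable_const)))

/-- the `x` for fixed `y` -/
theorem HD2_slice (A B v y : ℝ) (hv : 0 < v) (hy : 0 < y) (hA : 7 / 8 ≤ A / √y) :
    (volume : Measure ℝ) {x : ℝ | |√y * B - x / √y * A| ≤ v} ≤ ENNReal.ofReal (3 * v) := by
  obtain ⟨m, hm⟩ : ∃ m : ℝ, m = A / √y := ⟨_, rfl⟩
  rw [← hm] at hA
  have hm0 : 0 < m := by linarith
  have hsub : {x : ℝ | |√y * B - x / √y * A| ≤ v} ⊆
      Icc (√y * B / m - 8 / 7 * v) (√y * B / m + 8 / 7 * v) := by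
    intro x hx
    have hx1 : |√y * B - x / √y * A| ≤ v := hx
    have e1 : √y * B - x / √y * A = m * (√y * B / m - x) := by
      rw [mul_sub, mul_div_cancel₀ _ hm0.ne', hm]
      ring
    rw [e1, abs_mul, abs_of_pos hm0] at hx1
    have e2 : |√y * B / m - x| ≤ 8 / 7 * v := by
      have h0 : 0 ≤ |√y * B / m - x| := abs_nonneg _
      nlinarith
    have e3 := abs_le.1 e2
    exact ⟨by linarith [e3.2], by linarith [e3.1]⟩
  refine (measure_mono hsub).trans ?_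
  rw [Real.volume_Icc]
  exact ENNReal.ofReal_le_ofReal (by linarith)

theorem HD2_Pv (A B v : ℝ) (hv : 0 < v) :
    (volume : Measure (ℝ × ℝ)) (HD2_P A B v) ≤ ENNReal.ofReal (54 * v) := by
  rw [Measure.volume_eq_prod, Measure.prod_apply_symm (HD2_Pm A B v)]
  have h1 : ∀ y : ℝ, (volume : Measure ℝ) ((fun x : ℝ => (x, y)) ⁻¹' HD2_P A B v) ≤
      (Icc (1 / 18 : ℝ) 18).indicator (fun _ => ENNReal.ofReal (3 * v)) y := by
    intro y
    by_cases hy : y ∈ Icc (1 / 18 : ℝ) 18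
    · rw [Set.indicator_of_mem hy]
      by_cases hA : 7 / 8 ≤ A / √y
      · refine (measure_mono ?_).trans (HD2_slice A B v y hv (by linarith [hy.1]) hA)
        intro x hx
        exact hx.2.2.2
      · have h2 : (fun x : ℝ => (x, y)) ⁻¹' HD2_P A B v = ∅ := by
          ext x
          refine ⟨fun hx => hA hx.2.2.1, fun hx => hx.elim⟩
        rw [h2, measure_empty]
        exact zero_le
    · have h2 : (fun x : ℝ => (x, y)) ⁻¹' HD2_P A B v = ∅ := by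
        ext x
        refine ⟨fun hx => hy ⟨hx.1, hx.2.1⟩, fun hx => hx.elim⟩
      rw [h2, measure_empty]
      exact zero_le
  refine (lintegral_mono h1).trans ?_
  rw [lintegral_indicator measurableSet_Icc, setLIntegral_const, Real.volume_Icc,
    ← ENNReal.ofReal_mul (by positivity)]
  exact ENNReal.ofReal_le_ofReal (by nlinarith)

/-- the set in the upper half plane -/
def HD2_B (A B v : ℝ) : Set ℍ :=
  {z | 1 / 18 ≤ z.im ∧ z.im ≤ 18 ∧ 7 / 8 ≤ A / √z.im ∧ |√z.im * B - z.re / √z.im * A| ≤ v}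

theorem HD2_Bv (A B v : ℝ) (hv : 0 < v) :
    (volume : Measure ℍ) (HD2_B A B v) ≤ ENNReal.ofReal (17496 * v) := by
  rw [volume_eq_lintegral]
  have hT : ((↑) : ℍ → ℂ) '' HD2_B A B v ⊆ Complex.measurableEquivRealProd ⁻¹' HD2_P A B v := by
    rintro w ⟨z, hz, rfl⟩
    exact hz
  have hTm : MeasurableSet (Complex.measurableEquivRealProd ⁻¹' HD2_P A B v) :=
    Complex.measurableEquivRealProd.measurable (HD2_Pm A B v)
  have hTv : (volume : Measure ℂ) (Complex.measurableEquivRealProd ⁻¹' HD2_P A B v) ≤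
      ENNReal.ofReal (54 * v) := by
    rw [Complex.volume_preserving_equiv_real_prod.measure_preimage (HD2_Pm A B v).nullMeasurableSet]
    exact HD2_Pv A B v hv
  calc ∫⁻ z : ℂ in ((↑) : ℍ → ℂ) '' HD2_B A B v, ↑((1 / ‖z.im‖₊) ^ 2 : NNReal)
      ≤ ∫⁻ z : ℂ in Complex.measurableEquivRealProd ⁻¹' HD2_P A B v, ↑((1 / ‖z.im‖₊) ^ 2 : NNReal) :=
        lintegral_mono_set hT
    _ ≤ ∫⁻ z : ℂ in Complex.measurableEquivRealProd ⁻¹' HD2_P A B v, ENNReal.ofReal 324 := by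
        refine setLIntegral_mono' hTm fun z hz => ?_
        have h1 : 1 / 18 ≤ z.im := hz.1
        have h2 : ((1 / ‖z.im‖₊) ^ 2 : NNReal) ≤ (324 : ℝ).toNNReal := by
          rw [← NNReal.coe_le_coe, Real.coe_toNNReal _ (by norm_num)]
          push_cast
          rw [Real.norm_eq_abs, abs_of_pos (by linarith)]
          have h3 : 1 / z.im ≤ 18 := by
            rw [div_le_iff₀ (by linarith)]
            linarith
          have h4 : 0 ≤ 1 / z.im := by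
            have : 0 < z.im := by linarith
            positivity
          nlinarith
        exact ENNReal.coe_le_coe.2 h2
    _ = ENNReal.ofReal 324 * (volume : Measure ℂ) (Complex.measurableEquivRealProd ⁻¹' HD2_P A B v) := by
        rw [setLIntegral_const]
    _ ≤ ENNReal.ofReal 324 * ENNReal.ofReal (54 * v) := by gcongr
    _ ≤ ENNReal.ofReal (17496 * v) := by
        rw [← ENNReal.ofReal_mul (by norm_num)]
        exact ENNReal.ofReal_le_ofReal (by nlinarith)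

theorem HD2_inv (z₀ k : SL(2, ℝ)) :
    (z₀ * k⁻¹).1 0 0 = z₀.1 0 0 * k.1 1 1 - z₀.1 0 1 * k.1 1 0 ∧
    (z₀ * k⁻¹).1 0 1 = z₀.1 0 1 * k.1 0 0 - z₀.1 0 0 * k.1 0 1 := by
  have h : (z₀ * k⁻¹).1 = z₀.1 * !![k.1 1 1, -k.1 0 1; -k.1 1 0, k.1 0 0] := by
    change z₀.1 * (k⁻¹).1 = _
    rw [Matrix.SpecialLinearGroup.SL2_inv_expl]
    rfl
  rw [h]
  constructor
  · simp [Matrix.mul_apply, Fin.sum_univ_two]
    ring
  · simp [Matrix.mul_apply, Fin.sum_univ_two]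
    ring

theorem HD2_mem (z : ℍ) (θ ρ : ℝ) (h1 : ∀ i j : Fin 2, |(toSL2R z * kM θ).1 i j| ≤ 3)
    (h2 : |(toSL2R z * kM θ).1 1 0| ≤ ρ) : (1 / 18 ≤ z.im ∧ z.im ≤ 18) ∧ |Real.sin θ| ≤ 5 * ρ := by
  obtain ⟨e00, e01, e10, e11⟩ := EN.XVO_ent z θ
  have hy : 0 < z.im := z.im_pos
  set r : ℝ := √z.im with hr
  have hr0 : 0 < r := Real.sqrt_pos.2 hy
  have hrr : r * r = z.im := Real.mul_self_sqrt hy.le
  have a00 := h1 0 0
  have a01 := h1 0 1
  have a10 := h1 1 0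
  have a11 := h1 1 1
  rw [e00] at a00
  rw [e01] at a01
  rw [e10] at a10 h2
  rw [e11] at a11
  have hsc := Real.sin_sq_add_cos_sq θ
  have sq : ∀ x : ℝ, |x| ≤ 3 → x ^ 2 ≤ 9 := fun x hx => by
    have := abs_le.1 hx
    nlinarith [this.1, this.2]
  have b00 := sq _ a00
  have b01 := sq _ a01
  have b10 := sq _ a10
  have b11 := sq _ a11
  have s1 : (1 / r) ^ 2 ≤ 18 := by
    have : (1 / r) ^ 2 = (1 / r * (-Real.sin θ)) ^ 2 + (1 / r * Real.cos θ) ^ 2 := by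
      have e : (1 / r * (-Real.sin θ)) ^ 2 + (1 / r * Real.cos θ) ^ 2 =
        (1 / r) ^ 2 * (Real.sin θ ^ 2 + Real.cos θ ^ 2) := by ring
      rw [e, hsc, mul_one]
    linarith
  have s2 : r ^ 2 + (z.re / r) ^ 2 ≤ 18 := by
    have : r ^ 2 + (z.re / r) ^ 2 = (r * Real.cos θ + z.re / r * (-Real.sin θ)) ^ 2 +
        (r * Real.sin θ + z.re / r * Real.cos θ) ^ 2 := by
      have e : (r * Real.cos θ + z.re / r * (-Real.sin θ)) ^ 2 +
        (r * Real.sin θ + z.re / r * Real.cos θ) ^ 2 =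
        (r ^ 2 + (z.re / r) ^ 2) * (Real.sin θ ^ 2 + Real.cos θ ^ 2) := by ring
      rw [e, hsc, mul_one]
    linarith
  have y1 : 1 ≤ 18 * z.im := by
    rw [← hrr]
    have e : (1 / r) ^ 2 * (r * r) = 1 := by field_simp
    nlinarith [mul_pos hr0 hr0]
  have y2 : z.im ≤ 18 := by
    rw [← hrr]
    nlinarith [sq_nonneg (z.re / r)]
  refine ⟨⟨by linarith, y2⟩, ?_⟩
  have hρ : 0 ≤ ρ := (abs_nonneg _).trans h2
  have e1 : |1 / r * (-Real.sin θ)| = |Real.sin θ| / r := by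
    rw [abs_mul, abs_neg, abs_of_pos (by positivity)]
    ring
  rw [e1, div_le_iff₀ hr0] at h2
  have r3 : r ≤ 5 := by
    by_contra hc
    push Not at hc
    nlinarith
  nlinarith

/-- the set for one element of the group -/
def HD2_S (a v ρ : ℝ) (z₀ : SL(2, ℝ)) : Set SL(2, ℝ) :=
  {k | (∀ i j, |k.1 i j| ≤ 3) ∧ |k.1 1 0| ≤ ρ ∧ bq a v a (z₀ * k⁻¹)}

theorem HD2_Sc (a v ρ : ℝ) (z₀ : SL(2, ℝ)) : IsClosed (HD2_S a v ρ z₀) := by
  have hc : ∀ i j : Fin 2, Continuous fun h : SL(2, ℝ) => h.1 i j := fun i j =>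
    (continuous_apply j).comp ((continuous_apply i).comp continuous_subtype_val)
  have hd : ∀ i j : Fin 2, Continuous fun h : SL(2, ℝ) => (z₀ * h⁻¹).1 i j := fun i j =>
    (hc i j).comp (continuous_const.mul continuous_inv)
  have h1 : HD2_S a v ρ z₀ =
      (⋂ i : Fin 2, ⋂ j : Fin 2, {h : SL(2, ℝ) | |h.1 i j| ≤ 3}) ∩ ({h : SL(2, ℝ) | |h.1 1 0| ≤ ρ} ∩
        ({h : SL(2, ℝ) | |(z₀ * h⁻¹).1 0 0 - 1| ≤ a} ∩ ({h : SL(2, ℝ) | |(z₀ * h⁻¹).1 1 1 - 1| ≤ a} ∩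
        ({h : SL(2, ℝ) | |(z₀ * h⁻¹).1 0 1| ≤ v} ∩ {h : SL(2, ℝ) | |(z₀ * h⁻¹).1 1 0| ≤ a})))) := by
    ext h
    simp only [HD2_S, bq, Set.mem_inter_iff, Set.mem_iInter, Set.mem_ofPred_eq]
  rw [h1]
  exact (isClosed_iInter fun i => isClosed_iInter fun j =>
    isClosed_le (hc i j).abs continuous_const).inter ((isClosed_le (hc 1 0).abs continuous_const).inter
    ((isClosed_le ((hd 0 0).sub continuous_const).abs continuous_const).inter
    ((isClosed_le ((hd 1 1).sub continuous_const).abs continuous_const).inter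
    ((isClosed_le (hd 0 1).abs continuous_const).inter (isClosed_le (hd 1 0).abs continuous_const)))))

theorem HD2_one (a v ρ : ℝ) (z₀ : SL(2, ℝ)) (ha : a ≤ 1 / 8) (hv : 0 < v) (hρ : 0 < ρ) :
    mG (HD2_S a v ρ z₀) ≤ ENNReal.ofReal (87480 * v * ρ) := by
  have hSm : MeasurableSet (HD2_S a v ρ z₀) := (HD2_Sc a v ρ z₀).measurableSet
  have hp := Real.pi_pos
  have hmap : Measurable (fun p : ℍ × ℝ => toSL2R p.1 * kM p.2) :=
    ((continuous_toSL2R.comp continuous_fst).mul (GLC.2.2.2.2.2.2.1.comp continuous_snd)).measurable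
  unfold mG
  rw [Measure.map_apply hmap hSm, Measure.prod_apply_symm (hmap hSm)]
  have hΘ : MeasurableSet {θ : ℝ | |Real.sin θ| ≤ 5 * ρ} :=
    (isClosed_le Real.continuous_sin.abs continuous_const).measurableSet
  have hin : ∀ θ : ℝ, (volume : Measure ℍ) ((fun z : ℍ => (z, θ)) ⁻¹'
      ((fun p : ℍ × ℝ => toSL2R p.1 * kM p.2) ⁻¹' HD2_S a v ρ z₀)) ≤
      {θ : ℝ | |Real.sin θ| ≤ 5 * ρ}.indicator (fun _ => ENNReal.ofReal (17496 * v)) θ := by
    intro θ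
    by_cases hθ : |Real.sin θ| ≤ 5 * ρ
    · rw [Set.indicator_of_mem (show θ ∈ {θ : ℝ | |Real.sin θ| ≤ 5 * ρ} from hθ)]
      refine (measure_mono ?_).trans (HD2_Bv (z₀.1 0 0 * Real.cos θ + z₀.1 0 1 * Real.sin θ)
        (z₀.1 0 1 * Real.cos θ - z₀.1 0 0 * Real.sin θ) v hv)
      intro z hz
      obtain ⟨h1, h2, h3, -, h5, -⟩ : (∀ i j, |(toSL2R z * kM θ).1 i j| ≤ 3) ∧
        |(toSL2R z * kM θ).1 1 0| ≤ ρ ∧ bq a v a (z₀ * (toSL2R z * kM θ)⁻¹) := hz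
      obtain ⟨⟨y1, y2⟩, -⟩ := HD2_mem z θ ρ h1 h2
      obtain ⟨e1, e2⟩ := HD2_inv z₀ (toSL2R z * kM θ)
      obtain ⟨e00, e01, e10, e11⟩ := EN.XVO_ent z θ
      rw [e1, e10, e11] at h3
      rw [e2, e00, e01] at h5
      have hr0 : 0 < √z.im := Real.sqrt_pos.2 z.im_pos
      have f1 : z₀.1 0 0 * (1 / √z.im * Real.cos θ) - z₀.1 0 1 * (1 / √z.im * -Real.sin θ) =
          (z₀.1 0 0 * Real.cos θ + z₀.1 0 1 * Real.sin θ) / √z.im := by
        field_simp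
        ring
      have f2 : z₀.1 0 1 * (√z.im * Real.cos θ + z.re / √z.im * -Real.sin θ) -
          z₀.1 0 0 * (√z.im * Real.sin θ + z.re / √z.im * Real.cos θ) =
          √z.im * (z₀.1 0 1 * Real.cos θ - z₀.1 0 0 * Real.sin θ) -
          z.re / √z.im * (z₀.1 0 0 * Real.cos θ + z₀.1 0 1 * Real.sin θ) := by
        ring
      rw [f1] at h3
      rw [f2] at h5
      have h3' := abs_le.1 h3
      exact ⟨y1, y2, by linarith [h3'.1], h5⟩
    · rw [Set.indicator_of_notMem (show θ ∉ {θ : ℝ | |Real.sin θ| ≤ 5 * ρ} from hθ)]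
      have h2 : ((fun z : ℍ => (z, θ)) ⁻¹'
        ((fun p : ℍ × ℝ => toSL2R p.1 * kM p.2) ⁻¹' HD2_S a v ρ z₀)) = ∅ := by
        ext z
        refine ⟨fun hz => hθ (HD2_mem z θ ρ hz.1 hz.2.1).2, fun hz => hz.elim⟩
      rw [h2, measure_empty]
  refine (lintegral_mono hin).trans ?_
  rw [lintegral_smul_measure, lintegral_indicator hΘ, setLIntegral_const,
    Measure.restrict_apply hΘ]
  have h3 : ENNReal.ofReal (2 * Real.pi) ≠ 0 := by
    rw [Ne, ENNReal.ofReal_eq_zero, not_le]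
    positivity
  calc (ENNReal.ofReal (2 * Real.pi))⁻¹ • (ENNReal.ofReal (17496 * v) *
      (volume : Measure ℝ) ({θ : ℝ | |Real.sin θ| ≤ 5 * ρ} ∩ Ioc 0 (2 * Real.pi)))
      ≤ (ENNReal.ofReal (2 * Real.pi))⁻¹ • (ENNReal.ofReal (17496 * v) *
        ENNReal.ofReal (2 * Real.pi * (5 * ρ))) := by
        have := EN.XVO_sin (5 * ρ) (by positivity)
        gcongr
    _ = ENNReal.ofReal (17496 * v) * ENNReal.ofReal (5 * ρ) := by
        rw [smul_eq_mul, ENNReal.ofReal_mul (p := 2 * Real.pi) (q := 5 * ρ) (by positivity),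
          mul_left_comm, ← mul_assoc (ENNReal.ofReal (2 * Real.pi))⁻¹, ENNReal.inv_mul_cancel h3
          ENNReal.ofReal_ne_top, one_mul]
    _ ≤ ENNReal.ofReal (87480 * v * ρ) := by
        rw [← ENNReal.ofReal_mul (by positivity)]
        exact ENNReal.ofReal_le_ofReal (by nlinarith)

theorem HD2_dist : ∃ D : ℝ, ∀ h : SL(2, ℝ), (∀ i j, |h.1 i j| ≤ 8) → dist (h • I) I ≤ D := by
  have h1 : IsCompact {m : Matrix (Fin 2) (Fin 2) ℝ | ∀ i j, |m i j| ≤ 8} := by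
    have h2 : {m : Matrix (Fin 2) (Fin 2) ℝ | ∀ i j, |m i j| ≤ 8} =
        Set.pi Set.univ (fun _ : Fin 2 => Set.pi Set.univ (fun _ : Fin 2 => Icc (-8 : ℝ) 8)) := by
      ext m
      constructor
      · intro h i _ j _
        exact abs_le.1 (h i j)
      · intro h i j
        exact abs_le.2 (h i (Set.mem_univ _) j (Set.mem_univ _))
    rw [h2]
    exact isCompact_univ_pi fun _ => isCompact_univ_pi fun _ => isCompact_Icc
  have h3 : IsCompact {h : SL(2, ℝ) | ∀ i j, |h.1 i j| ≤ 8} :=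
    Matrix.SpecialLinearGroup.isClosedEmbedding_val.isCompact_preimage h1
  obtain ⟨D, hD⟩ := h3.exists_bound_of_continuousOn (f := fun h : SL(2, ℝ) => dist (h • I) I)
    (Continuous.continuousOn (by fun_prop))
  refine ⟨D, fun h hh => ?_⟩
  have h4 := hD h hh
  rw [Real.norm_eq_abs] at h4
  exact (le_abs_self _).trans h4

theorem HD2_fin (Γ : Subgroup SL(2, ℝ)) (hΓ : QU.SurfaceGroup Γ) : ∃ N₀ : ℕ, ∀ y g : SL(2, ℝ),
    {γ : Γ | ∀ i j, |(y⁻¹ * (γ : SL(2, ℝ)) * g).1 i j| ≤ 8}.Finite ∧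
    {γ : Γ | ∀ i j, |(y⁻¹ * (γ : SL(2, ℝ)) * g).1 i j| ≤ 8}.ncard ≤ N₀ := by
  obtain ⟨D, hD⟩ := HD2_dist
  obtain ⟨K, hK, hcov⟩ := hΓ.cocompact
  have hK4 : IsCompact (Metric.cthickening (2 * D) K) := hK.cthickening
  have hSfin := hΓ.discrete _ hK4
  have hiso : ∀ (γ : Γ) (z w : ℍ), dist (γ • z) (γ • w) = dist z w := fun γ z w => dist_smul (γ : SL(2, ℝ)) z w
  refine ⟨{γ : Γ | ∃ z ∈ Metric.cthickening (2 * D) K, γ • z ∈ Metric.cthickening (2 * D) K}.ncard, fun y g => ?_⟩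
  obtain ⟨δ, hδ⟩ := hcov (g • I)
  have hd : ∀ γ ∈ {γ : Γ | ∀ i j, |(y⁻¹ * (γ : SL(2, ℝ)) * g).1 i j| ≤ 8},
      dist (γ • (g • I)) (y • I) ≤ D := by
    intro γ hγ
    have h1 := hD _ hγ
    have h2 : y • ((y⁻¹ * (γ : SL(2, ℝ)) * g) • I) = γ • (g • I) := by
      rw [mul_assoc, mul_smul, smul_inv_smul, mul_smul]
      rfl
    rw [← h2, dist_smul]
    exact h1
  rcases Set.eq_empty_or_nonempty {γ : Γ | ∀ i j, |(y⁻¹ * (γ : SL(2, ℝ)) * g).1 i j| ≤ 8} with h | ⟨γ₀, hγ₀⟩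
  · rw [h]
    exact ⟨Set.finite_empty, by rw [Set.ncard_empty]; exact Nat.zero_le _⟩
  · have hinj : Function.Injective (fun γ : Γ => δ * γ₀⁻¹ * γ * δ⁻¹) := by
      intro a b hab
      exact mul_left_cancel (mul_right_cancel hab)
    have hmaps : ∀ γ ∈ {γ : Γ | ∀ i j, |(y⁻¹ * (γ : SL(2, ℝ)) * g).1 i j| ≤ 8},
        (fun γ : Γ => δ * γ₀⁻¹ * γ * δ⁻¹) γ ∈
          {γ : Γ | ∃ z ∈ Metric.cthickening (2 * D) K, γ • z ∈ Metric.cthickening (2 * D) K} := by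
      intro γ hγ
      refine ⟨δ • (g • I), Metric.self_subset_cthickening K hδ, ?_⟩
      have e : (δ * γ₀⁻¹ * γ * δ⁻¹) • (δ • (g • I)) = δ • (γ₀⁻¹ • (γ • (g • I))) := by
        rw [mul_smul, inv_smul_smul, mul_smul, mul_smul]
      change (δ * γ₀⁻¹ * γ * δ⁻¹) • (δ • (g • I)) ∈ _
      rw [e]
      refine Metric.mem_cthickening_of_dist_le _ _ _ _ hδ ?_
      have h1 : dist (δ • (γ₀⁻¹ • (γ • (g • I)))) (δ • (g • I)) = dist (γ • (g • I)) (γ₀ • (g • I)) := by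
        rw [hiso, ← hiso γ₀ (γ₀⁻¹ • (γ • (g • I))), smul_inv_smul]
      rw [h1]
      have h2 := hd γ hγ
      have h3 := hd γ₀ hγ₀
      calc dist (γ • (g • I)) (γ₀ • (g • I)) ≤ dist (γ • (g • I)) (y • I) + dist (γ₀ • (g • I)) (y • I) :=
            dist_triangle_right _ _ _
        _ ≤ 2 * D := by linarith
    refine ⟨?_, Set.ncard_le_ncard_of_injOn _ hmaps hinj.injOn hSfin⟩
    exact Set.Finite.of_injOn (f := fun γ : Γ => δ * γ₀⁻¹ * γ * δ⁻¹) hmaps hinj.injOn hSfin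

theorem HD2_proof : HD2_stmt := by
  intro Γ hΓ
  obtain ⟨N₀, hN₀⟩ := HD2_fin Γ hΓ
  refine ⟨(N₀ + 1) * 87480, by positivity, ?_⟩
  intro a v ρ y g ha ha8 hv hv1 hρ
  obtain ⟨hfin, hcard⟩ := hN₀ y g
  have hsub : {k : SL(2, ℝ) | (∀ i j, |k.1 i j| ≤ 3) ∧ |k.1 1 0| ≤ ρ ∧
      ∃ γ : Γ, bq a v a (y⁻¹ * (γ : SL(2, ℝ)) * (g * k⁻¹))} ⊆
      ⋃ γ ∈ hfin.toFinset, HD2_S a v ρ (y⁻¹ * (γ : SL(2, ℝ)) * g) := by
    rintro k ⟨h1, h2, γ, h3⟩
    have e0 : y⁻¹ * (γ : SL(2, ℝ)) * (g * k⁻¹) = y⁻¹ * (γ : SL(2, ℝ)) * g * k⁻¹ :=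
      (mul_assoc _ _ _).symm
    rw [e0] at h3
    obtain ⟨q, hq⟩ : ∃ q : SL(2, ℝ), q = y⁻¹ * (γ : SL(2, ℝ)) * g * k⁻¹ := ⟨_, rfl⟩
    have hqk : y⁻¹ * (γ : SL(2, ℝ)) * g = q * k := by
      rw [hq, inv_mul_cancel_right]
    have hmem : γ ∈ {γ : Γ | ∀ i j, |(y⁻¹ * (γ : SL(2, ℝ)) * g).1 i j| ≤ 8} := by
      change ∀ i j, |(y⁻¹ * (γ : SL(2, ℝ)) * g).1 i j| ≤ 8
      rw [hqk]
      rw [← hq] at h3
      obtain ⟨b1, b2, b3, b4⟩ := h3
      have c1 := abs_le.1 b1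
      have c2 := abs_le.1 b2
      have d00 : |q.1 0 0| ≤ 9 / 8 := abs_le.2 ⟨by linarith [c1.1], by linarith [c1.2]⟩
      have d11 : |q.1 1 1| ≤ 9 / 8 := abs_le.2 ⟨by linarith [c2.1], by linarith [c2.2]⟩
      have d01 : |q.1 0 1| ≤ 9 / 8 := by linarith
      have d10 : |q.1 1 0| ≤ 9 / 8 := by linarith
      have hent : ∀ i j : Fin 2, |(q * k).1 i j| ≤ |q.1 i 0| * |k.1 0 j| + |q.1 i 1| * |k.1 1 j| := by
        intro i j
        have : (q * k).1 i j = q.1 i 0 * k.1 0 j + q.1 i 1 * k.1 1 j := by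
          change (q.1 * k.1) i j = _
          rw [Matrix.mul_apply, Fin.sum_univ_two]
        rw [this, ← abs_mul, ← abs_mul]
        exact abs_add_le _ _
      have hq9 : ∀ i j : Fin 2, |q.1 i j| ≤ 9 / 8 := by
        intro i j
        fin_cases i <;> fin_cases j
        · exact d00
        · exact d01
        · exact d10
        · exact d11
      intro i j
      refine (hent i j).trans ?_
      have m1 : |q.1 i 0| * |k.1 0 j| ≤ 9 / 8 * 3 :=
        mul_le_mul (hq9 i 0) (h1 0 j) (abs_nonneg _) (by norm_num)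
      have m2 : |q.1 i 1| * |k.1 1 j| ≤ 9 / 8 * 3 :=
        mul_le_mul (hq9 i 1) (h1 1 j) (abs_nonneg _) (by norm_num)
      linarith
    exact Set.mem_biUnion (hfin.mem_toFinset.2 hmem) ⟨h1, h2, h3⟩
  refine (measure_mono hsub).trans ((measure_biUnion_finset_le _ _).trans ?_)
  refine (Finset.sum_le_card_nsmul _ _ (ENNReal.ofReal (87480 * v * ρ))
    (fun γ _ => HD2_one a v ρ _ ha8 hv hρ)).trans ?_
  have hc : hfin.toFinset.card ≤ N₀ := by
    rw [← Set.ncard_eq_toFinset_card _ hfin]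
    exact hcard
  rw [← ENNReal.ofReal_nsmul]
  refine ENNReal.ofReal_le_ofReal ?_
  rw [nsmul_eq_mul]
  have hc' : (hfin.toFinset.card : ℝ) ≤ (N₀ : ℝ) + 1 := by
    have : (hfin.toFinset.card : ℝ) ≤ N₀ := by exact_mod_cast hc
    linarith
  have hpos : 0 ≤ 87480 * v * ρ := by positivity
  calc (hfin.toFinset.card : ℝ) * (87480 * v * ρ) ≤ ((N₀ : ℝ) + 1) * (87480 * v * ρ) :=
        mul_le_mul_of_nonneg_right hc' hpos
    _ = ((N₀ : ℝ) + 1) * 87480 * v * ρ := by ring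

end Pool.Agent.MS
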