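import Pool.Agent.helper62.MS.SpecA

/-!
# MP_07c750, project MS, row EQ4
-/

set_option autoImplicit false

open scoped MatrixGroups ContDiff Topology UpperHalfPlane ComplexConjugate
open UpperHalfPlane MeasureTheory Filter Set

namespace Pool.Agent.MS

open Pool.Agent.RS

theorem EQ4_cont {n : WithTop ℕ∞} {φ : ℍ → ℂ} (h : QU.CD n φ) : Continuous φ := by
  have h1 : ContinuousOn (QU.onC φ) {w : ℂ | 0 < w.im} := h.continuousOn
  have h2 : Continuous fun z : ℍ => QU.onC φ (z : ℂ) := h1.comp_continuous continuous_coe fun z => z.im_pos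
  have h3 : (fun z : ℍ => QU.onC φ (z : ℂ)) = φ := by
    funext z
    unfold QU.onC
    rw [ofComplex_apply]
  rwa [h3] at h2

/-- the packet coefficient is a continuous bounded invariant function -/
theorem EQ4_pf (hFL0 : FL0_stmt) (hCV1 : CV1_stmt) (hGBD : GBD_stmt) {Γ : Subgroup SL(2, ℝ)}
    (hΓ : QU.SurfaceGroup Γ) {β α : ℝ → ℝ} (hβ : SB (1 / 4) β) (hα : SB (1 / 4) α) (r : ℝ) {φ : ℍ → ℂ}
    (hφ : InvC Γ φ) : InvG Γ (pf β α r φ) ∧ ∃ m : ℝ, ∀ g, ‖pf β α r φ g‖ ≤ m := by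
  have hTB : TB (1 / 4) (pc β α) := (hCV1.2.2 (1 / 4) α β hα hβ).1
  have hT := hFL0.2.1 (1 / 4) r (pc β α) hTB
  have hW : InvG Γ (Wf (pk r (pc β α)) φ) := hFL0.2.2 Γ _ φ (EQ4_cont hT.1) hT.2 hφ
  exact ⟨hW, (hGBD Γ ℂ _ hΓ hW).1⟩

/-- the analytic part -/
theorem EQ4_abs {Ω : Type} [MeasurableSpace Ω] (μ : Measure Ω) [IsFiniteMeasure μ] (X Y Ψ : Ω → ℝ)
    (hX : Measurable X) (hY : Measurable Y) (hΨ : Measurable Ψ) (hΨ1 : ∀ g, |Ψ g| ≤ 1)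
    (hX0 : ∀ g, 0 ≤ X g) (hY0 : ∀ g, 0 ≤ Y g) (mX mY : ℝ) (hXm : ∀ g, X g ≤ mX) (hYm : ∀ g, Y g ≤ mY)
    (r η N : ℝ) (hr : 0 ≤ r) (hη : 0 < η) (h1 : r * ∫ g, (X g - Y g) ^ 2 ∂μ ≤ η ^ 2 / 8 * N)
    (h2 : r * ∫ g, X g ^ 2 ∂μ ≤ 2 * N) (h3 : r * ∫ g, Y g ^ 2 ∂μ ≤ 2 * N) :
    |r * (∫ g, Ψ g * X g ^ 2 ∂μ) - r * ∫ g, Ψ g * Y g ^ 2 ∂μ| ≤ η * N := by
  have hb : ∀ f : Ω → ℝ, Measurable f → (∃ m : ℝ, ∀ g, |f g| ≤ m) → Integrable f μ := by
    rintro f hf ⟨m, hm⟩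
    exact Integrable.of_bound hf.aestronglyMeasurable m (Filter.Eventually.of_forall fun g => by
      rw [Real.norm_eq_abs]
      exact hm g)
  have iX : Integrable (fun g => X g ^ 2) μ := hb _ (hX.pow_const 2) ⟨mX ^ 2, fun g => by
    rw [abs_of_nonneg (by positivity)]
    exact pow_le_pow_left₀ (hX0 g) (hXm g) 2⟩
  have iY : Integrable (fun g => Y g ^ 2) μ := hb _ (hY.pow_const 2) ⟨mY ^ 2, fun g => by
    rw [abs_of_nonneg (by positivity)]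
    exact pow_le_pow_left₀ (hY0 g) (hYm g) 2⟩
  have iXY : Integrable (fun g => (X g - Y g) ^ 2) μ := by
    refine hb _ ((hX.sub hY).pow_const 2) ⟨(mX + mY) ^ 2, fun g => ?_⟩
    rw [abs_of_nonneg (by positivity)]
    have a1 := hX0 g
    have a2 := hY0 g
    have a3 := hXm g
    have a4 := hYm g
    nlinarith
  have iΨX : Integrable (fun g => Ψ g * X g ^ 2) μ :=
    iX.bdd_mul hΨ.aestronglyMeasurable (Filter.Eventually.of_forall fun g => by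
      rw [Real.norm_eq_abs]
      exact hΨ1 g)
  have iΨY : Integrable (fun g => Ψ g * Y g ^ 2) μ :=
    iY.bdd_mul hΨ.aestronglyMeasurable (Filter.Eventually.of_forall fun g => by
      rw [Real.norm_eq_abs]
      exact hΨ1 g)
  have hpt : ∀ g, |Ψ g * X g ^ 2 - Ψ g * Y g ^ 2| ≤
      4 / η * (X g - Y g) ^ 2 + η / 8 * (X g ^ 2 + Y g ^ 2) := by
    intro g
    have a1 := hX0 g
    have a2 := hY0 g
    have e1 : Ψ g * X g ^ 2 - Ψ g * Y g ^ 2 = Ψ g * ((X g - Y g) * (X g + Y g)) := by ring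
    rw [e1, abs_mul, abs_mul, abs_of_nonneg (add_nonneg a1 a2)]
    have e2 : |Ψ g| * (|X g - Y g| * (X g + Y g)) ≤ |X g - Y g| * (X g + Y g) := by
      have := hΨ1 g
      have h5 : 0 ≤ |X g - Y g| * (X g + Y g) := by positivity
      nlinarith
    refine e2.trans ?_
    have e3 : (X g - Y g) ^ 2 = |X g - Y g| ^ 2 := (sq_abs _).symm
    rw [e3]
    obtain ⟨a, ha⟩ : ∃ a : ℝ, a = |X g - Y g| := ⟨_, rfl⟩
    have ha0 : 0 ≤ a := by rw [ha]; positivity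
    rw [← ha]
    have e4 : (X g + Y g) ^ 2 ≤ 2 * (X g ^ 2 + Y g ^ 2) := by nlinarith [sq_nonneg (X g - Y g)]
    have e5 : a * (X g + Y g) ≤ 4 / η * a ^ 2 + η / 16 * (X g + Y g) ^ 2 := by
      have h6 : 0 ≤ (2 * a - η / 4 * (X g + Y g)) ^ 2 / η := by positivity
      have h7 : (2 * a - η / 4 * (X g + Y g)) ^ 2 / η =
          4 / η * a ^ 2 - a * (X g + Y g) + η / 16 * (X g + Y g) ^ 2 := by
        field_simp
        ring
      linarith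
    nlinarith
  have hI1 : |(∫ g, Ψ g * X g ^ 2 ∂μ) - ∫ g, Ψ g * Y g ^ 2 ∂μ| ≤
      4 / η * (∫ g, (X g - Y g) ^ 2 ∂μ) + η / 8 * ((∫ g, X g ^ 2 ∂μ) + ∫ g, Y g ^ 2 ∂μ) := by
    rw [← integral_sub iΨX iΨY]
    refine (abs_integral_le_integral_abs).trans ?_
    have i1 : Integrable (fun g => 4 / η * (X g - Y g) ^ 2) μ := iXY.const_mul _
    have i2 : Integrable (fun g => η / 8 * (X g ^ 2 + Y g ^ 2)) μ := (iX.add iY).const_mul _
    rw [← integral_add iX iY, ← integral_const_mul, ← integral_const_mul, ← integral_add i1 i2]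
    exact integral_mono (iΨX.sub iΨY).abs (i1.add i2) hpt
  rw [← mul_sub, abs_mul, abs_of_nonneg hr]
  calc r * |(∫ g, Ψ g * X g ^ 2 ∂μ) - ∫ g, Ψ g * Y g ^ 2 ∂μ| ≤
      r * (4 / η * (∫ g, (X g - Y g) ^ 2 ∂μ) + η / 8 * ((∫ g, X g ^ 2 ∂μ) + ∫ g, Y g ^ 2 ∂μ)) :=
        mul_le_mul_of_nonneg_left hI1 hr
    _ = 4 / η * (r * ∫ g, (X g - Y g) ^ 2 ∂μ) + η / 8 * (r * ∫ g, X g ^ 2 ∂μ) +
        η / 8 * (r * ∫ g, Y g ^ 2 ∂μ) := by ring
    _ ≤ 4 / η * (η ^ 2 / 8 * N) + η / 8 * (2 * N) + η / 8 * (2 * N) := by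
        gcongr
    _ = η * N := by
        field_simp
        ring

theorem EQ4_proof (hEQ3 : EQ3_stmt) (hNM3 : NM3_stmt) (hSTB : STB_stmt) (hGFD : GFD_stmt)
    (hGBD : GBD_stmt) (hFL0 : FL0_stmt) (hCV1 : CV1_stmt) : EQ4_stmt := by
  intro Γ F β α1 α2 T hΓ hF hβ hα1 hα2 hT η hη
  obtain ⟨-, -, -, hstBB, hmono, -⟩ := hSTB
  obtain ⟨r1, hr1, h1⟩ := hEQ3 Γ F β α1 α2 T hΓ hF hβ hα1 hα2 hT (η ^ 2 / 8) (by positivity)
  have hα1' : BA (1 / 4) α1 := (hmono (1 / 8) (1 / 4) α1 (by norm_num)).2.1 hα1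
  have hα2' : BA (1 / 4) α2 := (hmono (1 / 8) (1 / 4) α2 (by norm_num)).2.1 hα2
  have hβ' : BB (1 / 4) (st (-T) β) := by
    refine (hmono (Real.exp (-T) * (1 / 4)) (1 / 4) (st (-T) β) ?_).2.2 (hstBB (1 / 4) (-T) β hβ)
    have h2 : Real.exp (-T) ≤ 1 := Real.exp_le_one_iff.2 (by linarith)
    linarith
  obtain ⟨r2, hr2, h2⟩ := hNM3 Γ F α1 (st (-T) β) hΓ hF hα1' hβ' 1 one_pos
  obtain ⟨r3, hr3, h3⟩ := hNM3 Γ F α2 β hΓ hF hα2' hβ 1 one_pos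
  refine ⟨max r1 (max r2 r3), hr1.trans (le_max_left _ _), ?_⟩
  intro r φ hr hφ Ψ hΨ hΨ1 hΨi
  have hrr1 : r1 ≤ r := (le_max_left _ _).trans hr
  have hrr2 : r2 ≤ r := ((le_max_left _ _).trans (le_max_right _ _)).trans hr
  have hrr3 : r3 ≤ r := ((le_max_right _ _).trans (le_max_right _ _)).trans hr
  have hr0 : 0 ≤ r := by linarith
  have hφ' : InvC Γ φ := ⟨EQ4_cont hφ.1, hφ.2.1⟩
  obtain ⟨hX, mX, hXm⟩ := EQ4_pf hFL0 hCV1 hGBD hΓ hβ'.1 hα1'.1 r hφ'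
  obtain ⟨hY, mY, hYm⟩ := EQ4_pf hFL0 hCV1 hGBD hΓ hβ.1 hα2'.1 r hφ'
  obtain ⟨⟨hm, -, hfin, -⟩, hG⟩ := hGFD Γ F hΓ hF
  have hfm : IsFiniteMeasure (mG.restrict (dG F)) := ⟨by rwa [Measure.restrict_apply_univ]⟩
  have hGR := (hG ℝ).1
  -- the translations
  have t1 : iR F (fun g => ‖pf (st (-T) β) α1 r φ (g * aM T)‖ ^ 2) =
      qn F (pc (st (-T) β) α1) r φ :=
    hGR (fun g => ‖pf (st (-T) β) α1 r φ g‖ ^ 2) (aM T) (fun γ g => by
      change ‖pf (st (-T) β) α1 r φ ((γ : SL(2, ℝ)) * g)‖ ^ 2 = _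
      rw [hX.2 γ g])
  have t2 : iR F (fun g => Ψ g * ‖pf (st (-T) β) α1 r φ (g * aM T)‖ ^ 2) =
      iR F (fun g => Ψ (g * aM (-T)) * ‖pf (st (-T) β) α1 r φ g‖ ^ 2) := by
    have t3 := hGR (fun g => Ψ (g * aM (-T)) * ‖pf (st (-T) β) α1 r φ g‖ ^ 2) (aM T) (fun γ g => by
      change Ψ ((γ : SL(2, ℝ)) * g * aM (-T)) * ‖pf (st (-T) β) α1 r φ ((γ : SL(2, ℝ)) * g)‖ ^ 2 = _
      rw [hX.2 γ g, mul_assoc, hΨi])
    have t4 : ∀ g : SL(2, ℝ), g * aM T * aM (-T) = g := by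
      intro g
      rw [mul_assoc]
      have t5 : aM T * aM (-T) = 1 := by
        apply Subtype.ext
        change (aM T).1 * (aM (-T)).1 = (1 : Matrix (Fin 2) (Fin 2) ℝ)
        simp only [aM]
        rw [Matrix.mul_fin_two, Matrix.one_fin_two]
        have e1 : Real.exp (T / 2) * Real.exp (-T / 2) = 1 := by
          rw [← Real.exp_add]
          rw [show T / 2 + -T / 2 = 0 by ring, Real.exp_zero]
        have e2 : Real.exp (-(T / 2)) * Real.exp (-(-T / 2)) = 1 := by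
          rw [← Real.exp_add]
          rw [show -(T / 2) + -(-T / 2) = 0 by ring, Real.exp_zero]
        rw [e1, e2]
        simp
      rw [t5, mul_one]
    unfold iR
    rw [← t3]
    refine integral_congr_ae (Filter.Eventually.of_forall fun g => ?_)
    simp only [t4]
  have hmul : Continuous fun g : SL(2, ℝ) => g * aM T := continuous_mul_const _
  have hX' : Continuous fun g : SL(2, ℝ) => ‖pf (st (-T) β) α1 r φ (g * aM T)‖ :=
    (hX.1.comp hmul).norm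
  have hY' : Continuous fun g : SL(2, ℝ) => ‖pf β α2 r φ g‖ := hY.1.norm
  have key := EQ4_abs (mG.restrict (dG F)) (fun g => ‖pf (st (-T) β) α1 r φ (g * aM T)‖)
    (fun g => ‖pf β α2 r φ g‖) Ψ hX'.measurable hY'.measurable hΨ hΨ1 (fun g => norm_nonneg _)
    (fun g => norm_nonneg _) mX mY (fun g => hXm _) hYm r η (nn F φ) hr0 hη (h1 r φ hrr1 hφ) (by
      have t3 := (h2 r hrr2).1 φ hφ'
      rw [← t1] at t3
      unfold iR at t3
      linarith) (by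
      have t3 := (h3 r hrr3).1 φ hφ'
      change r * iR F (fun g => ‖pf β α2 r φ g‖ ^ 2) ≤ _ at t3
      unfold iR at t3
      linarith)
  rw [← t2]
  exact key

end Pool.Agent.MS
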